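import Pool.Agent.Lib.SRHT.Full.RegI
import Pool.Agent.Lib.SRHT.Full.RegII

/-!
# MP_bd58a7_pr, Q1: the rerandomized SRHT is an oblivious subspace embedding with `k = ⌈C r / ε²⌉`

Positive answer to the question: there is an absolute constant `C` such that for every `n = 2^m`, every
`1 ≤ r ≤ n` and every `ε ∈ (0,1)` with `k = ⌈C r / ε²⌉ ≤ n`, the rerandomized SRHT
`Ω = √(n/k) D₁ F D₂ F S ∈ ℝ^{n × k}` is an oblivious subspace embedding for `r`-dimensional subspaces with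
parameters `1 - ε`, `1 + ε` and failure probability `0.01`.

The second statement is the quantitative form that the proof gives: for `n = 2^m` with `m ≥ 2^20`, the constant
`2560000` is enough, for every `k ≤ n` with `k ≥ 2560000 r / ε²`.
-/

namespace Pool.Agent.Results.MP_bd58a7_pr.RerandomizedSRHT

open SRHT

theorem large (m r k : ℕ) (ε : ℝ) (hm : 2 ^ 20 ≤ m) (hr : 1 ≤ r) (hε0 : 0 < ε) (hε1 : ε < 1)
    (hC : 2560000 * (r : ℝ) ≤ k * ε ^ 2) (hk : k ≤ 2 ^ m) : IsOSE m r k (1 - ε) (1 + ε) (1 / 100) := by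
  have hr' : (1 : ℝ) ≤ r := by exact_mod_cast hr
  have hε2 : 0 < ε ^ 2 := by positivity
  have hε21 : ε ^ 2 ≤ 1 := by nlinarith
  have hk1 : 1 ≤ k := by
    rcases Nat.eq_zero_or_pos k with h | h
    · rw [h] at hC
      simp only [Nat.cast_zero, zero_mul] at hC
      linarith
    · exact h
  have hm' : 300 ≤ m := le_trans (by norm_num) hm
  apply isOSE_of_avg m r k hk1 hk ε (1 / 100)
  intro U hU
  rcases le_or_gt (r ^ 10) (2 ^ m) with hrm | hrm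
  · exact regime_I hm' ε U hU hr hrm hk hε0 hε1 (by linarith)
  · obtain ⟨inst, hb⟩ := hadamard_bichar m
    have hcard : Fintype.card (Fin (2 ^ m)) = 2 ^ m := Fintype.card_fin _
    exact @regime_II (Fin (2 ^ m)) inst _ _ (hadamard m) m r k hm hb hcard ε U hU hrm hk hε0 hε1 hC

/-- **Q1 of MP_bd58a7_pr holds.** -/
theorem result :
    (∃ C : ℝ, 0 < C ∧ ∀ (m r : ℕ) (ε : ℝ), 1 ≤ r → r ≤ 2 ^ m → 0 < ε → ε < 1 → ⌈C * r / ε ^ 2⌉₊ ≤ 2 ^ m →
      IsOSE m r ⌈C * r / ε ^ 2⌉₊ (1 - ε) (1 + ε) (1 / 100)) ∧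
    (∀ (m r k : ℕ) (ε : ℝ), 2 ^ 20 ≤ m → 1 ≤ r → 0 < ε → ε < 1 → 2560000 * (r : ℝ) ≤ k * ε ^ 2 → k ≤ 2 ^ m →
      IsOSE m r k (1 - ε) (1 + ε) (1 / 100)) := by
  refine ⟨?_, fun m r k ε hm hr hε0 hε1 hC hk => large m r k ε hm hr hε0 hε1 hC hk⟩
  obtain ⟨N, hN⟩ : ∃ N : ℕ, N = 2 ^ 20 := ⟨_, rfl⟩
  refine ⟨(2 : ℝ) ^ N, by positivity, ?_⟩
  intro m r ε hr _ hε0 hε1 hk
  set C : ℝ := (2 : ℝ) ^ N with hC
  set k := ⌈C * r / ε ^ 2⌉₊ with hkdef
  have hr' : (1 : ℝ) ≤ r := by exact_mod_cast hr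
  have hε2 : 0 < ε ^ 2 := by positivity
  have hε21 : ε ^ 2 ≤ 1 := by nlinarith
  have hkC : C * r / ε ^ 2 ≤ k := Nat.le_ceil _
  have hC0 : 0 < C := by positivity
  have hCr : C * r ≤ k * ε ^ 2 := by
    rw [div_le_iff₀ hε2] at hkC; exact hkC
  have hkm : (k : ℝ) ≤ 2 ^ m := by exact_mod_cast hk
  have hCk : C ≤ k := by nlinarith
  have hNm : N ≤ m := by
    have h1 : (2 : ℝ) ^ N ≤ 2 ^ m := hCk.trans hkm
    exact (pow_le_pow_iff_right₀ (by norm_num)).mp h1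
  have hbig : (2560000 : ℝ) ≤ C := by
    have h1 : (2 : ℝ) ^ 22 ≤ 2 ^ N := pow_le_pow_right₀ (by norm_num) (by rw [hN]; norm_num)
    exact le_trans (by norm_num) h1
  have h2 : 2560000 * (r : ℝ) ≤ k * ε ^ 2 := le_trans (by nlinarith) hCr
  exact large m r k ε (by rw [← hN]; exact hNm) hr hε0 hε1 h2 hk

end Pool.Agent.Results.MP_bd58a7_pr.RerandomizedSRHT
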